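import Pool.Agent.W209.KT.Stm

set_option autoImplicit false

namespace Pool.Agent.W824.KT

theorem core (K D r ψ W : ℝ) (hK : 1 ≤ K) (hr : 1 ≤ r) (hD : r ≤ D) (hψ : 0 < ψ)
    (hψr : ψ * r ^ 6 ≤ K) (hW : 0 < W) (hW1 : W ≤ 1) (hDW : 1 ≤ D * W ^ 12) (hψD : ψ * D ≤ 1) :
    ψ ^ 10 * ((1 + (K * r ^ 72) / (ψ * D ^ 36) + (K * r ^ 72) * D * ψ / (D ^ 12 * W ^ 12)) *
      (1 + min (D * ψ * (D ^ 12 * W ^ 12)) (K * r ^ 72) / D ^ 2)) ≤
    K ^ 12 * (4 / r + W ^ 11 * min (r ^ 6 / D) (D / r ^ 6)) + K * r ^ 72 * ψ ^ 12 := by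
  have hr0 : 0 < r := by linarith
  have hD0 : 0 < D := by linarith
  have hK0 : 0 < K := by linarith
  have hψ1 : ψ ≤ K / r ^ 6 := by rw [le_div_iff₀ (by positivity)]; exact hψr
  have hpow : ∀ n : ℕ, ψ ^ n ≤ K ^ n / r ^ (6 * n) := by
    intro n
    calc ψ ^ n ≤ (K / r ^ 6) ^ n := pow_le_pow_left₀ hψ.le hψ1 n
      _ = K ^ n / r ^ (6 * n) := by rw [div_pow, ← pow_mul]
  have hKn : ∀ n : ℕ, n ≤ 12 → K ^ n ≤ K ^ 12 := fun n hn => pow_le_pow_right₀ hK hn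
  have hrn : ∀ n : ℕ, 1 ≤ n → r ≤ r ^ n := fun n hn => le_self_pow₀ hr (by omega)
  have fin : ∀ n m : ℕ, n ≤ 12 → 1 ≤ m → K ^ n / r ^ m ≤ K ^ 12 / r := by
    intro n m hn hm
    exact div_le_div₀ (by positivity) (hKn n hn) hr0 (hrn m hm)
  set A := (K * r ^ 72) / (ψ * D ^ 36) with hA
  set B := (K * r ^ 72) * D * ψ / (D ^ 12 * W ^ 12) with hB
  set m := min (D * ψ * (D ^ 12 * W ^ 12)) (K * r ^ 72) / D ^ 2 with hm
  have hA0 : 0 ≤ A := by positivity
  have hB0 : 0 ≤ B := by positivity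
  have hm1 : m ≤ (D * ψ * (D ^ 12 * W ^ 12)) / D ^ 2 :=
    div_le_div_of_nonneg_right (min_le_left _ _) (by positivity)
  have hm2 : m ≤ (K * r ^ 72) / D ^ 2 :=
    div_le_div_of_nonneg_right (min_le_right _ _) (by positivity)
  have T1 : ψ ^ 10 ≤ K ^ 12 / r := (hpow 10).trans (fin 10 (6 * 10) (by norm_num) (by norm_num))
  have T2 : ψ ^ 10 * A ≤ K ^ 12 / r := by
    have e1 : ψ ^ 10 * A = K * r ^ 72 * ψ ^ 9 / D ^ 36 := by
      rw [hA]; field_simp
    rw [e1]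
    calc K * r ^ 72 * ψ ^ 9 / D ^ 36 ≤ K * r ^ 72 * (K ^ 9 / r ^ (6 * 9)) / r ^ 36 := by
          gcongr
          exact hpow 9
      _ = K ^ 10 / r ^ 18 := by field_simp
      _ ≤ _ := fin 10 18 (by norm_num) (by norm_num)
  have T3 : ψ ^ 10 * B ≤ K ^ 12 / r := by
    have e1 : ψ ^ 10 * B = K * r ^ 72 * ψ ^ 11 / (D ^ 10 * (D * W ^ 12)) := by
      rw [hB]; field_simp
    rw [e1]
    calc K * r ^ 72 * ψ ^ 11 / (D ^ 10 * (D * W ^ 12)) ≤
          K * r ^ 72 * (K ^ 11 / r ^ (6 * 11)) / (r ^ 10 * 1) := by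
          gcongr
          exact hpow 11
      _ = K ^ 12 / r ^ 4 := by field_simp
      _ ≤ _ := fin 12 4 (by norm_num) (by norm_num)
  have T5 : ψ ^ 10 * (A * m) ≤ K ^ 12 / r := by
    have e2 : W ^ 12 ≤ 1 := pow_le_one₀ hW.le hW1
    calc ψ ^ 10 * (A * m) ≤ ψ ^ 10 * (A * ((D * ψ * (D ^ 12 * W ^ 12)) / D ^ 2)) := by gcongr
      _ = K * r ^ 72 * ψ ^ 10 * W ^ 12 / D ^ 25 := by rw [hA]; field_simp
      _ ≤ K * r ^ 72 * (K ^ 10 / r ^ (6 * 10)) * 1 / r ^ 25 := by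
          gcongr
          exact hpow 10
      _ = K ^ 11 / r ^ 13 := by field_simp
      _ ≤ _ := fin 11 13 (by norm_num) (by norm_num)
  have T6 : ψ ^ 10 * (B * m) ≤ K * r ^ 72 * ψ ^ 12 := by
    calc ψ ^ 10 * (B * m) ≤ ψ ^ 10 * (B * ((D * ψ * (D ^ 12 * W ^ 12)) / D ^ 2)) := by gcongr
      _ = K * r ^ 72 * ψ ^ 12 := by rw [hB]; field_simp
  have hψD0 : 0 ≤ ψ * D := by positivity
  have T4 : ψ ^ 10 * m ≤ K ^ 12 * (W ^ 11 * min (r ^ 6 / D) (D / r ^ 6)) := by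
    obtain ⟨z, hz⟩ : ∃ z, z = r ^ 6 / D := ⟨_, rfl⟩
    have hz0 : 0 < z := by rw [hz]; positivity
    have hz' : D / r ^ 6 = 1 / z := by rw [hz]; field_simp
    rw [← hz, hz']
    have f1 : ψ ^ 10 * m ≤ K * z ^ 12 := by
      calc ψ ^ 10 * m ≤ ψ ^ 10 * ((K * r ^ 72) / D ^ 2) := by gcongr
        _ = (ψ * D) ^ 10 * (K * z ^ 12) := by rw [hz]; field_simp
        _ ≤ 1 * (K * z ^ 12) := by
            gcongr
            exact pow_le_one₀ hψD0 hψD
        _ = _ := one_mul _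
    have f2 : ψ ^ 10 * m ≤ (ψ * D) ^ 11 * W ^ 12 := by
      calc ψ ^ 10 * m ≤ ψ ^ 10 * ((D * ψ * (D ^ 12 * W ^ 12)) / D ^ 2) := by gcongr
        _ = _ := by field_simp
    have hK12 : 1 ≤ K ^ 12 := one_le_pow₀ hK
    have hKK : K ≤ K ^ 12 := le_self_pow₀ hK (by norm_num)
    rcases le_total z 1 with h | h
    · have hmin : min z (1 / z) = z := min_eq_left (by rw [le_div_iff₀ hz0]; nlinarith)
      rw [hmin]
      rcases le_total z W with h' | h'
      · calc ψ ^ 10 * m ≤ K * z ^ 12 := f1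
          _ = K * (z ^ 11 * z) := by ring
          _ ≤ K ^ 12 * (W ^ 11 * z) := by gcongr
      · calc ψ ^ 10 * m ≤ (ψ * D) ^ 11 * W ^ 12 := f2
          _ ≤ 1 * W ^ 12 := by
              gcongr
              exact pow_le_one₀ hψD0 hψD
          _ = 1 * (W ^ 11 * W) := by ring
          _ ≤ K ^ 12 * (W ^ 11 * z) := by gcongr
    · have hmin : min z (1 / z) = 1 / z := min_eq_right (by
        rw [div_le_iff₀ hz0]; nlinarith)
      rw [hmin]
      have g1 : ψ * D ≤ K / z := by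
        rw [hz]
        calc ψ * D ≤ (K / r ^ 6) * D := by gcongr
          _ = _ := by field_simp
      calc ψ ^ 10 * m ≤ (ψ * D) ^ 11 * W ^ 12 := f2
        _ ≤ (K / z) ^ 11 * W ^ 12 := by gcongr
        _ = K ^ 11 * (W ^ 11 * (1 / z ^ 11)) * W := by rw [div_pow]; ring
        _ ≤ K ^ 12 * (W ^ 11 * (1 / z)) * 1 := by
            gcongr
            · norm_num
            · exact le_self_pow₀ h (by norm_num)
        _ = _ := by ring
  have e : ψ ^ 10 * ((1 + A + B) * (1 + m)) = ψ ^ 10 + ψ ^ 10 * A + ψ ^ 10 * B + ψ ^ 10 * m +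
      ψ ^ 10 * (A * m) + ψ ^ 10 * (B * m) := by ring
  rw [e]
  have e4 : K ^ 12 * (4 / r + W ^ 11 * min (r ^ 6 / D) (D / r ^ 6)) =
      4 * (K ^ 12 / r) + K ^ 12 * (W ^ 11 * min (r ^ 6 / D) (D / r ^ 6)) := by ring
  rw [e4]
  linarith

open Pool.Agent.W209.KT

noncomputable def rho : ℝ := (2 : ℝ) ^ (-(1 / 12 : ℝ))

theorem rho_pos : 0 < rho := by unfold rho; positivity

theorem rho_lt : rho < 1 := by
  unfold rho
  exact Real.rpow_lt_one_of_one_lt_of_neg (by norm_num) (by norm_num)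

theorem rho_pow (d : ℕ) : rho ^ d = (2 : ℝ) ^ (-((d : ℝ) / 12)) := by
  unfold rho
  rw [← Real.rpow_natCast, ← Real.rpow_mul (by norm_num)]
  congr 1
  ring

noncomputable def hh (n : ℤ) : ℝ := rho ^ n.natAbs

theorem hh_nonneg (n : ℤ) : 0 ≤ hh n := pow_nonneg rho_pos.le _

theorem hh_summable : Summable hh := by
  have h := summable_geometric_of_lt_one rho_pos.le rho_lt
  apply Summable.of_nat_of_neg
  · simpa [hh] using h
  · simpa [hh] using h

noncomputable def aa (k : ℕ) : ℕ := 1000 * 36 ^ k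

noncomputable def WW (k : ℕ) : ℝ := (1 / 2) ^ lev k

theorem WW_pos (k : ℕ) : 0 < WW k := by unfold WW; positivity

theorem WW_le (k : ℕ) : WW k ≤ 1 := by
  unfold WW
  exact pow_le_one₀ (by norm_num) (by norm_num)

theorem lev1 (k : ℕ) : 256 ^ lev k ≤ k + 1 := by
  unfold lev
  exact Nat.pow_log_le_self 256 (by omega)

theorem lev2 (k : ℕ) : k + 1 < 256 ^ (lev k + 1) := by
  unfold lev
  exact Nat.lt_pow_succ_log_self (by norm_num) _

theorem WW_summable : Summable fun k => WW k ^ 11 := by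
  have hs : Summable fun k : ℕ => (256 : ℝ) ^ (11 / 8 : ℝ) * (1 / ((k + 1 : ℕ) : ℝ) ^ (11 / 8 : ℝ)) := by
    apply Summable.mul_left
    exact (summable_nat_add_iff 1).2 (Real.summable_one_div_nat_rpow.2 (by norm_num))
  refine Summable.of_nonneg_of_le (fun k => pow_nonneg (WW_pos k).le _) (fun k => ?_) hs
  have h2 : ((k + 1 : ℕ) : ℝ) < 256 ^ (lev k + 1) := by exact_mod_cast lev2 k
  have hk0 : (0 : ℝ) < ((k + 1 : ℕ) : ℝ) := by positivity
  have e1 : WW k ^ 11 = ((256 : ℝ) ^ lev k) ^ (-(11 / 8) : ℝ) := by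
    unfold WW
    rw [← pow_mul, ← Real.rpow_natCast (256 : ℝ) (lev k), ← Real.rpow_mul (by norm_num),
      show (256 : ℝ) = 2 ^ (8 : ℝ) by norm_num, ← Real.rpow_mul (by norm_num), one_div, inv_pow,
      ← Real.rpow_natCast, ← Real.rpow_neg (by norm_num)]
    congr 1
    push_cast
    ring
  rw [e1]
  have h3 : ((k + 1 : ℕ) : ℝ) / 256 ≤ (256 : ℝ) ^ lev k := by
    rw [div_le_iff₀ (by norm_num), ← pow_succ]
    exact h2.le
  calc ((256 : ℝ) ^ lev k) ^ (-(11 / 8) : ℝ) ≤ (((k + 1 : ℕ) : ℝ) / 256) ^ (-(11 / 8) : ℝ) :=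
        Real.rpow_le_rpow_of_nonpos (by positivity) h3 (by norm_num)
    _ = _ := by
        rw [Real.div_rpow hk0.le (by norm_num), Real.rpow_neg hk0.le, Real.rpow_neg (by norm_num)]
        field_simp

noncomputable def ff (x : ℕ × ℕ) : ℝ := WW x.1 ^ 11 * hh ((x.2 : ℤ) - 12 * (aa x.1 : ℤ))

theorem ff_nonneg (x : ℕ × ℕ) : 0 ≤ ff x :=
  mul_nonneg (pow_nonneg (WW_pos _).le _) (hh_nonneg _)

theorem row_summable (c : ℤ) : Summable fun i : ℕ => hh ((i : ℤ) - c) :=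
  hh_summable.comp_injective (i := fun i : ℕ => (i : ℤ) - c) (fun a b h => by
    simp only at h
    omega)

theorem row_le (c : ℤ) : ∑' i : ℕ, hh ((i : ℤ) - c) ≤ ∑' n : ℤ, hh n :=
  tsum_comp_le_tsum_of_inj hh_summable hh_nonneg (i := fun i : ℕ => (i : ℤ) - c) (fun a b h => by
    simp only at h
    omega)

theorem ff_summable : Summable ff := by
  rw [summable_prod_of_nonneg ff_nonneg]
  have hrow : ∀ k : ℕ, Summable fun i : ℕ => WW k ^ 11 * hh ((i : ℤ) - 12 * (aa k : ℤ)) :=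
    fun k => (row_summable (12 * (aa k : ℤ))).mul_left (WW k ^ 11)
  refine ⟨fun k => hrow k, ?_⟩
  refine Summable.of_nonneg_of_le (fun k => tsum_nonneg fun i => ff_nonneg _) (fun k => ?_)
    (WW_summable.mul_right (∑' n : ℤ, hh n))
  change ∑' i : ℕ, WW k ^ 11 * hh ((i : ℤ) - 12 * (aa k : ℤ)) ≤ _
  rw [tsum_mul_left]
  exact mul_le_mul_of_nonneg_left (row_le _) (pow_nonneg (WW_pos k).le _)

noncomputable def rr (i : ℕ) : ℝ := (2 : ℝ) ^ ((i : ℝ) / 72)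

theorem rr_one (i : ℕ) : 1 ≤ rr i := by
  unfold rr
  exact Real.one_le_rpow (by norm_num) (by positivity)

theorem rr_pow (i n : ℕ) : rr i ^ n = (2 : ℝ) ^ ((i : ℝ) * n / 72) := by
  unfold rr
  rw [← Real.rpow_natCast, ← Real.rpow_mul (by norm_num)]
  congr 1
  ring

theorem rr72 (i : ℕ) : rr i ^ 72 = 2 ^ i := by
  rw [rr_pow, ← Real.rpow_natCast]
  congr 1
  push_cast
  ring

noncomputable def ee (i : ℕ) : ℝ := (rr i)⁻¹ + ∑' k, ff (k, i)

theorem ee_summable : Summable ee := by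
  apply Summable.add
  · have h : (fun i => (rr i)⁻¹) = fun i : ℕ => ((2 : ℝ) ^ (-(1 / 72 : ℝ))) ^ i := by
      funext i
      unfold rr
      rw [← Real.rpow_natCast, ← Real.rpow_mul (by norm_num), ← Real.rpow_neg (by norm_num)]
      congr 1
      ring
    rw [h]
    exact summable_geometric_of_lt_one (by positivity)
      (Real.rpow_lt_one_of_one_lt_of_neg (by norm_num) (by norm_num))
  · exact ff_summable.prod_symm.prod

theorem col_le (k i : ℕ) : ff (k, i) ≤ ∑' k, ff (k, i) := by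
  have h : Summable fun k => ff (k, i) := ff_summable.prod_symm.prod_factor i
  exact h.le_tsum k fun j _ => ff_nonneg _

theorem col_nonneg (i : ℕ) : 0 ≤ ∑' k, ff (k, i) := tsum_nonneg fun _ => ff_nonneg _

theorem min_le_hh (k i : ℕ) : min (rr i ^ 6 / (2 : ℝ) ^ aa k) ((2 : ℝ) ^ aa k / rr i ^ 6) ≤
    hh ((i : ℤ) - 12 * (aa k : ℤ)) := by
  have h6 : rr i ^ 6 = (2 : ℝ) ^ ((i : ℝ) / 12) := by
    rw [rr_pow]
    congr 1
    push_cast
    ring
  rw [h6, ← Real.rpow_natCast (2 : ℝ) (aa k), ← Real.rpow_sub (by norm_num),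
    ← Real.rpow_sub (by norm_num)]
  unfold hh
  rw [rho_pow]
  rcases le_total (12 * aa k) i with h | h
  · obtain ⟨d, hd⟩ := Nat.exists_eq_add_of_le h
    have e : ((i : ℤ) - 12 * (aa k : ℤ)).natAbs = d := by omega
    rw [e]
    refine (min_le_right _ _).trans (le_of_eq ?_)
    congr 1
    have : (i : ℝ) = 12 * aa k + d := by exact_mod_cast hd
    rw [this]
    ring
  · obtain ⟨d, hd⟩ := Nat.exists_eq_add_of_le h
    have e : ((i : ℤ) - 12 * (aa k : ℤ)).natAbs = d := by omega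
    rw [e]
    refine (min_le_left _ _).trans (le_of_eq ?_)
    congr 1
    have : (12 : ℝ) * aa k = i + d := by exact_mod_cast hd
    linarith

theorem DW (k : ℕ) : 1 ≤ (2 : ℝ) ^ aa k * WW k ^ 12 := by
  have h1 : 2 ^ (12 * lev k) ≤ 2 ^ aa k := by
    have e1 : (2 : ℕ) ^ (12 * lev k) ≤ 2 ^ (16 * lev k) :=
      Nat.pow_le_pow_right (by norm_num) (by omega)
    have e2 : (2 : ℕ) ^ (16 * lev k) = (256 ^ lev k) ^ 2 := by
      rw [show (256 : ℕ) = 2 ^ 8 by norm_num, ← pow_mul, ← pow_mul]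
      congr 1
      ring
    have e3 : (256 ^ lev k) ^ 2 ≤ (k + 1) ^ 2 := Nat.pow_le_pow_left (lev1 k) 2
    have e4 : (k + 1) ^ 2 ≤ (2 ^ k) ^ 2 := Nat.pow_le_pow_left (Nat.lt_two_pow_self) 2
    have e5 : ((2 : ℕ) ^ k) ^ 2 ≤ 2 ^ aa k := by
      rw [← pow_mul]
      apply Nat.pow_le_pow_right (by norm_num)
      have : k < 36 ^ k := Nat.lt_pow_self (by norm_num)
      unfold aa
      omega
    omega
  have h2 : (2 : ℝ) ^ (12 * lev k) ≤ (2 : ℝ) ^ aa k := by exact_mod_cast h1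
  have h3 : WW k ^ 12 = 1 / 2 ^ (12 * lev k) := by
    unfold WW
    rw [← pow_mul, one_div, inv_pow, one_div, mul_comm]
  rw [h3, mul_one_div, le_div_iff₀ (by positivity), one_mul]
  exact h2

theorem cnt_fin (α : Fin 2 → ℝ) (L : ℕ) (ψ : ℝ) :
    ({y : ℤ | |y| ≤ (L : ℤ) ∧ ∀ j, nrm (α j * y) ≤ ψ} : Set ℤ).Finite := by
  refine (Set.finite_Icc (-(L : ℤ)) L).subset fun y hy => ?_
  exact abs_le.1 hy.1

theorem cnt_triv (α : Fin 2 → ℝ) (L : ℕ) (ψ : ℝ) : cnt α L ψ ≤ 2 * L + 1 := by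
  unfold cnt
  have h : ({y : ℤ | |y| ≤ (L : ℤ) ∧ ∀ j, nrm (α j * y) ≤ ψ} : Set ℤ) ⊆
      (Finset.Icc (-(L : ℤ)) L : Finset ℤ) := by
    intro y hy
    rw [Finset.coe_Icc]
    exact abs_le.1 hy.1
  have h2 := Set.ncard_le_ncard h (Finset.finite_toSet _)
  rw [Set.ncard_coe_finset, Int.card_Icc] at h2
  omega

theorem cnt_mono (α : Fin 2 → ℝ) (L : ℕ) {ψ ψ' : ℝ} (h : ψ ≤ ψ') : cnt α L ψ ≤ cnt α L ψ' :=
  Set.ncard_le_ncard (fun _ hy => ⟨hy.1, fun j => (hy.2 j).trans h⟩) (cnt_fin α L ψ')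

theorem exk (i : ℕ) (hi : 2000 ≤ i) : ∃ k, 2 * aa k ≤ i ∧ i < 72 * aa k := by
  refine ⟨Nat.log 36 (i / 2000), ?_, ?_⟩
  · have h := Nat.pow_log_le_self 36 (x := i / 2000) (by omega)
    unfold aa
    omega
  · have h := Nat.lt_pow_succ_log_self (b := 36) (by norm_num) (i / 2000)
    rw [pow_succ] at h
    unfold aa
    omega

theorem C : S_C := by
  intro hCA hCB A s hG
  obtain ⟨CA, hCA0, hCA⟩ := hCA
  obtain ⟨CB, hCB0, hCB⟩ := hCB
  intro K hK
  have hKR : (1 : ℝ) ≤ (K : ℝ) := by exact_mod_cast hK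
  have hK0 : (0 : ℝ) < K := by linarith
  have hK12 : (1 : ℝ) ≤ (K : ℝ) ^ 12 := one_le_pow₀ hKR
  have hKK : (K : ℝ) ≤ (K : ℝ) ^ 12 := le_self_pow₀ hKR (by norm_num)
  have hfinal : ∀ (M : ℝ), 0 < M → ∃ (C : ℝ) (e : ℕ → ℝ), 0 < C ∧ Summable e ∧
      ∀ (i : ℕ) (ψ : ℝ), 0 < ψ → 2 ^ i * ψ ^ 12 ≤ K → (i < 2000 → ψ ^ 10 *
        cnt (fun j => A j 10) (K * 2 ^ i) ψ ≤ M) →
      ψ ^ 10 * cnt (fun j => A j 10) (K * 2 ^ i) ψ ≤ C * (2 ^ i * ψ ^ 12 + e i) := by
    intro M hM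
    refine ⟨M * 2 ^ 28 + 4 * CA * K + 4 * CB * K ^ 12, ee, by positivity, ee_summable, ?_⟩
    intro i ψ hψ hψK hsmall
    have hr1 := rr_one i
    have hr0 : 0 < rr i := by linarith
    have hee : 0 ≤ ee i := add_nonneg (inv_nonneg.2 hr0.le) (col_nonneg i)
    have hX : 0 ≤ 2 ^ i * ψ ^ 12 + ee i := by positivity
    by_cases hi : i < 2000
    · have h28 : (1 : ℝ) ≤ 2 ^ 28 * ee i := by
        have h1 : (rr i)⁻¹ ≤ ee i := le_add_of_nonneg_right (col_nonneg i)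
        have h2 : rr i ≤ 2 ^ 28 := by
          unfold rr
          rw [← Real.rpow_natCast]
          apply Real.rpow_le_rpow_of_exponent_le (by norm_num)
          have : (i : ℝ) ≤ 2000 := by exact_mod_cast hi.le
          push_cast
          linarith
        have h3 : 1 = rr i * (rr i)⁻¹ := (mul_inv_cancel₀ hr0.ne').symm
        calc (1 : ℝ) = rr i * (rr i)⁻¹ := h3
          _ ≤ 2 ^ 28 * ee i := mul_le_mul h2 h1 (inv_nonneg.2 hr0.le) (by positivity)
      have h4 : M ≤ M * (2 ^ 28 * ee i) := le_mul_of_one_le_right hM.le h28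
      have h5 : 0 ≤ 2 ^ i * ψ ^ 12 := by positivity
      calc ψ ^ 10 * cnt (fun j => A j 10) (K * 2 ^ i) ψ ≤ M := hsmall hi
        _ ≤ M * (2 ^ 28 * ee i) := h4
        _ = M * 2 ^ 28 * ee i := by ring
        _ ≤ M * 2 ^ 28 * (2 ^ i * ψ ^ 12 + ee i) := by
            apply mul_le_mul_of_nonneg_left _ (by positivity)
            linarith
        _ ≤ (M * 2 ^ 28 + 4 * CA * K + 4 * CB * K ^ 12) * (2 ^ i * ψ ^ 12 + ee i) := by
            apply mul_le_mul_of_nonneg_right _ hX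
            have : 0 ≤ 4 * CA * K := by positivity
            have : 0 ≤ 4 * CB * (K : ℝ) ^ 12 := by positivity
            linarith
    · obtain ⟨k, hk1, hk2⟩ := exk i (by omega)
      have hDk : D k = 2 ^ aa k := rfl
      have hDR : ((D k : ℕ) : ℝ) = (2 : ℝ) ^ aa k := by rw [hDk]; push_cast; rfl
      have hLR : ((K * 2 ^ i : ℕ) : ℝ) = (K : ℝ) * rr i ^ 72 := by rw [rr72]; push_cast; rfl
      have hFR : F k = ((2 : ℝ) ^ aa k) ^ 12 * WW k ^ 12 := by
        unfold F WW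
        rw [hDR, ← pow_mul (1 / 2 : ℝ), one_div, inv_pow, mul_comm (lev k) 12, ← div_eq_mul_inv]
      have h2i : (2 : ℝ) ^ i = rr i ^ 72 := (rr72 i).symm
      by_cases hc : 1 ≤ ψ * 200 * D k
      · have h1 := hCA A s hG k (K * 2 ^ i) (2 * ψ) (by linarith) (by
          rw [hDk, ← pow_mul]
          calc 2 ^ (aa k * 2) ≤ 2 ^ i := Nat.pow_le_pow_right (by norm_num) (by omega)
            _ ≤ K * 2 ^ i := Nat.le_mul_of_pos_left _ (by omega))
        have h2 : (cnt (fun j => A j 10) (K * 2 ^ i) ψ : ℝ) ≤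
            cnt (fun j => A j 10) (K * 2 ^ i) (2 * ψ) := by
          exact_mod_cast cnt_mono _ _ (by linarith)
        calc ψ ^ 10 * cnt (fun j => A j 10) (K * 2 ^ i) ψ ≤
              ψ ^ 10 * (CA * ((K * 2 ^ i : ℕ) : ℝ) * (2 * ψ) ^ 2) := by
              apply mul_le_mul_of_nonneg_left (h2.trans h1) (by positivity)
          _ = 4 * CA * K * (2 ^ i * ψ ^ 12) := by push_cast; ring
          _ ≤ 4 * CA * K * (2 ^ i * ψ ^ 12 + ee i) := by
              apply mul_le_mul_of_nonneg_left _ (by positivity)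
              linarith
          _ ≤ _ := by
              apply mul_le_mul_of_nonneg_right _ hX
              have : 0 ≤ M * 2 ^ 28 := by positivity
              have : 0 ≤ 4 * CB * (K : ℝ) ^ 12 := by positivity
              linarith
      · have hc' : ψ * 200 * D k ≤ 1 := (not_le.1 hc).le
        have h1 := hCB A s hG k (K * 2 ^ i) ψ hψ hc' (Nat.one_le_iff_ne_zero.2 (by positivity))
        rw [hDR, hFR, hLR] at h1
        have hψD : ψ * (2 : ℝ) ^ aa k ≤ 1 := by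
          rw [hDR] at hc'
          have : 0 ≤ ψ * (2 : ℝ) ^ aa k := by positivity
          nlinarith
        have hrD : rr i ≤ (2 : ℝ) ^ aa k := by
          unfold rr
          rw [← Real.rpow_natCast]
          apply Real.rpow_le_rpow_of_exponent_le (by norm_num)
          have : (i : ℝ) ≤ 72 * aa k := by exact_mod_cast hk2.le
          linarith
        have hψr : ψ * rr i ^ 6 ≤ K := by
          have h3 : (ψ * rr i ^ 6) ^ 12 ≤ (K : ℝ) ^ 12 := by
            calc (ψ * rr i ^ 6) ^ 12 = rr i ^ 72 * ψ ^ 12 := by ring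
              _ = 2 ^ i * ψ ^ 12 := by rw [h2i]
              _ ≤ K := hψK
              _ ≤ _ := hKK
          exact le_of_pow_le_pow_left₀ (by norm_num) hK0.le h3
        have hcore := core K ((2 : ℝ) ^ aa k) (rr i) ψ (WW k) hKR hr1 hrD hψ hψr (WW_pos k)
          (WW_le k) (DW k) hψD
        have hcol : WW k ^ 11 * min (rr i ^ 6 / (2 : ℝ) ^ aa k) ((2 : ℝ) ^ aa k / rr i ^ 6) ≤
            ∑' k, ff (k, i) := by
          refine (mul_le_mul_of_nonneg_left (min_le_hh k i) (pow_nonneg (WW_pos k).le _)).trans ?_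
          exact col_le k i
        have hY : 0 ≤ 2 ^ i * ψ ^ 12 := by positivity
        have hS := col_nonneg i
        calc ψ ^ 10 * cnt (fun j => A j 10) (K * 2 ^ i) ψ ≤ ψ ^ 10 * (CB *
              (1 + (K * rr i ^ 72) / (ψ * ((2 : ℝ) ^ aa k) ^ 36) + (K * rr i ^ 72) *
              (2 : ℝ) ^ aa k * ψ / (((2 : ℝ) ^ aa k) ^ 12 * WW k ^ 12)) *
              (1 + min ((2 : ℝ) ^ aa k * ψ * (((2 : ℝ) ^ aa k) ^ 12 * WW k ^ 12))
              (K * rr i ^ 72) / ((2 : ℝ) ^ aa k) ^ 2)) := by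
              apply mul_le_mul_of_nonneg_left h1 (by positivity)
          _ = CB * (ψ ^ 10 * (
              (1 + (K * rr i ^ 72) / (ψ * ((2 : ℝ) ^ aa k) ^ 36) + (K * rr i ^ 72) *
              (2 : ℝ) ^ aa k * ψ / (((2 : ℝ) ^ aa k) ^ 12 * WW k ^ 12)) *
              (1 + min ((2 : ℝ) ^ aa k * ψ * (((2 : ℝ) ^ aa k) ^ 12 * WW k ^ 12))
              (K * rr i ^ 72) / ((2 : ℝ) ^ aa k) ^ 2))) := by ring
          _ ≤ CB * (K ^ 12 * (4 / rr i + WW k ^ 11 * min (rr i ^ 6 / (2 : ℝ) ^ aa k)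
              ((2 : ℝ) ^ aa k / rr i ^ 6)) + K * rr i ^ 72 * ψ ^ 12) :=
              mul_le_mul_of_nonneg_left hcore hCB0.le
          _ ≤ CB * (K ^ 12 * (4 * (rr i)⁻¹ + 4 * ∑' k, ff (k, i)) +
              4 * K ^ 12 * (2 ^ i * ψ ^ 12)) := by
              apply mul_le_mul_of_nonneg_left _ hCB0.le
              apply add_le_add
              · apply mul_le_mul_of_nonneg_left _ (by positivity)
                rw [div_eq_mul_inv]
                linarith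
              · rw [← h2i, mul_assoc]
                apply mul_le_mul_of_nonneg_right _ hY
                linarith
          _ = 4 * CB * K ^ 12 * (2 ^ i * ψ ^ 12 + ee i) := by unfold ee; ring
          _ ≤ _ := by
              apply mul_le_mul_of_nonneg_right _ hX
              have : 0 ≤ M * 2 ^ 28 := by positivity
              have : 0 ≤ 4 * CA * (K : ℝ) := by positivity
              linarith
  obtain ⟨C, e, hC, he, h⟩ := hfinal ((K : ℝ) ^ 10 * (2 * (K * 2 ^ 2000) + 1)) (by positivity)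
  refine ⟨C, e, hC, he, fun i ψ hψ hψK => h i ψ hψ hψK fun hi => ?_⟩
  have hψ12 : ψ ^ 12 ≤ (K : ℝ) ^ 12 := by
    have h1 : (1 : ℝ) ≤ 2 ^ i := one_le_pow₀ (by norm_num)
    have h2 : 0 ≤ ψ ^ 12 := by positivity
    calc ψ ^ 12 ≤ 2 ^ i * ψ ^ 12 := le_mul_of_one_le_left h2 h1
      _ ≤ K := hψK
      _ ≤ _ := hKK
  have hψ1 : ψ ≤ K := le_of_pow_le_pow_left₀ (by norm_num) hK0.le hψ12
  have hc1 : (cnt (fun j => A j 10) (K * 2 ^ i) ψ : ℝ) ≤ 2 * (K * 2 ^ 2000) + 1 := by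
    have h1 : (cnt (fun j => A j 10) (K * 2 ^ i) ψ : ℝ) ≤ ((2 * (K * 2 ^ i) + 1 : ℕ) : ℝ) := by
      exact_mod_cast cnt_triv _ _ _
    have h2 : (2 : ℝ) ^ i ≤ 2 ^ 2000 := pow_le_pow_right₀ (by norm_num) hi.le
    refine h1.trans ?_
    push_cast
    have h3 : (K : ℝ) * 2 ^ i ≤ K * 2 ^ 2000 := mul_le_mul_of_nonneg_left h2 hK0.le
    linarith
  exact mul_le_mul (pow_le_pow_left₀ hψ.le hψ1 10) hc1 (Nat.cast_nonneg _) (by positivity)

end Pool.Agent.W824.KT
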